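import Pool.Agent.CDN.Defs

/-!
# Bonds are elementary (MP_c5fcd0_co)

`tens_const`: a potential `h` whose tension vanishes on every arc inside `S` is constant on a
set `S` that is connected in itself (induction along the path).

`elem_of_bond`: let `χ` be the indicator of `S` and `g = tens s t (fun v => if v ∈ S then δ else 0)`
with `δ ≠ 0`. `g ≠ 0`: by `hG` there is a path from `p ∉ S` to `q ∈ S`, so some arc `a` has
exactly one end in `S` (induction), and `g a = ± δ`. Let `tens s t h ≠ 0` with support inside
`support g`. An arc with both ends in `S` or both outside has `g a = 0`, so `tens s t h a = 0`.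
Hence `h = h q` on `S` and `h = h p` outside `S`. If `h q = h p`, then `tens s t h = 0`,
impossible. So `tens s t h a = ± (h q - h p) ≠ 0` for every arc with exactly one end in `S`, that
is, for every `a` in the support of `g`.
-/

set_option autoImplicit false

namespace Pool.Agent.CDN

variable {V E : Type*}

theorem tens_const (s t : E → V) (S : Set V) (h : V → ℝ)
    (h0 : ∀ a, s a ∈ S → t a ∈ S → tens s t h a = 0) (u v : V) (huv : ConnIn s t S u v) :
    h u = h v := by
  induction huv with
  | refl => rfl
  | tail _ hbc ih =>
    obtain ⟨⟨a, ha⟩, hb, hc⟩ := hbc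
    rw [ih]
    rcases ha with ⟨h1, h2⟩ | ⟨h1, h2⟩
    · have := h0 a (by rw [h1]; exact hb) (by rw [h2]; exact hc)
      simp only [tens, h1, h2] at this
      linarith
    · have := h0 a (by rw [h1]; exact hc) (by rw [h2]; exact hb)
      simp only [tens, h1, h2] at this
      linarith

theorem const_of_tens_zero (s t : E → V) (h : V → ℝ) (h0 : ∀ a, tens s t h a = 0) (u v : V)
    (huv : Relation.ReflTransGen (Adj s t) u v) : h u = h v := by
  induction huv with
  | refl => rfl
  | tail _ hbc ih =>
    obtain ⟨a, ha⟩ := hbc
    rw [ih]
    have := h0 a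
    rcases ha with ⟨h1, h2⟩ | ⟨h1, h2⟩
    · simp only [tens, h1, h2] at this
      linarith
    · simp only [tens, h1, h2] at this
      linarith

open Classical in
theorem elem_of_bond (s t : E → V) (hG : GConn s t) (S : Set V) (p q : V)
    (hp : p ∉ S) (hq : q ∈ S) (hS : ∀ u ∈ S, ConnIn s t S q u)
    (hSc : ∀ u ∉ S, ConnIn s t Sᶜ p u) (δ : ℝ) (hδ : δ ≠ 0) :
    ElemT s t (tens s t (fun v => if v ∈ S then δ else 0)) := by
  refine ⟨⟨_, rfl⟩, ?_, ?_⟩
  · intro h0
    have h1 := const_of_tens_zero s t (fun v => if v ∈ S then δ else 0)
      (fun a => congrFun h0 a) p q (hG p q)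
    simp only [if_neg hp, if_pos hq] at h1
    exact hδ h1.symm
  · intro h hh hsub a ha
    have hin : ∀ a, s a ∈ S → t a ∈ S → tens s t h a = 0 := by
      intro a h1 h2
      by_contra hne
      have h3 := hsub (Function.mem_support.2 hne)
      rw [Function.mem_support] at h3
      apply h3
      simp only [tens, if_pos h1, if_pos h2, sub_self]
    have hout : ∀ a, s a ∈ Sᶜ → t a ∈ Sᶜ → tens s t h a = 0 := by
      intro a h1 h2
      by_contra hne
      have h3 := hsub (Function.mem_support.2 hne)
      rw [Function.mem_support] at h3
      apply h3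
      simp only [tens, if_neg (show ¬ s a ∈ S from h1), if_neg (show ¬ t a ∈ S from h2),
        sub_self]
    have hq' : ∀ u ∈ S, h u = h q := fun u hu => (tens_const s t S h hin q u (hS u hu)).symm
    have hp' : ∀ u, u ∉ S → h u = h p := fun u hu =>
      (tens_const s t Sᶜ h hout p u (hSc u hu)).symm
    have hne : h q ≠ h p := by
      intro heq
      apply hh
      funext a
      have key : ∀ u, h u = h p := by
        intro u
        by_cases hu : u ∈ S
        · rw [hq' u hu, heq]
        · exact hp' u hu
      simp only [tens, key (t a), key (s a), sub_self, Pi.zero_apply]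
    rw [Function.mem_support] at ha ⊢
    by_cases h1 : s a ∈ S
    · by_cases h2 : t a ∈ S
      · exfalso
        apply ha
        simp only [tens, if_pos h1, if_pos h2, sub_self]
      · simp only [tens, hq' _ h1, hp' _ h2]
        exact sub_ne_zero.2 hne.symm
    · by_cases h2 : t a ∈ S
      · simp only [tens, hq' _ h2, hp' _ h1]
        exact sub_ne_zero.2 hne
      · exfalso
        apply ha
        simp only [tens, if_neg h1, if_neg h2, sub_self]

end Pool.Agent.CDN
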