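import Pool.Agent.CDN.Defs

/-!
# Counting (MP_c5fcd0_co)

`L : ℕ → Set V` is increasing, `L 0 = {r}`, `L ρ = univ`, and
`2 ≤ (L k \ L (k - 1)).ncard` for `1 ≤ k < ρ`. With `n = Nat.card V`:
* `(L k).ncard ≥ 1 + 2 k` for `k < ρ` (induction, `Set.ncard_diff_add_ncard_of_subset` or
  `Set.ncard_diff`), so `(Lᶜ).ncard ≤ n - 1 - 2 k`;
* `∑ k < ρ, (L (k+1) \ L k).ncard = n - 1` (telescoping);
* `∑ k < ρ, (T \ L (k + 1)).ncard ≤ ∑ k < ρ - 1, (n - 1 - 2 (k + 1))`, since the last term is `0`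
  (`L ρ = univ`); also it is `≤ (ρ - 1) * T.ncard`;
* if `ρ ≥ 1`: `n ≥ 2 ρ`: `n ≥ (L (ρ - 1)).ncard + 1`, because `L (ρ - 1)`... this may fail if
  `L (ρ - 1) = univ`; but `(L (ρ - 1)).ncard ≥ 1 + 2 (ρ - 1) = 2 ρ - 1`, so `n ≥ 2 ρ - 1`, and this
  is enough for what follows if the minimality hypothesis `hmin : ρ = 0 ∨ L (ρ - 1) ≠ univ` is
  used: it gives `n ≥ 2 ρ`.
* total `≤ (n - 1) + ∑_{k=1}^{ρ-1} (n - 1 - 2 k) = ρ (n - ρ) ≤ n ^ 2 / 4`.
* total `≤ (n - 1) + T.ncard * (n / 2 - 1)`.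
-/

set_option autoImplicit false

namespace Pool.Agent.CDN

variable {V : Type*}

private theorem count_sum (a : ℕ → ℕ) (n : ℕ) : ∀ m : ℕ, (∀ k, k < m → a k + 3 + 2 * k ≤ n) →
    ∑ k ∈ Finset.range m, a k + m * m + 2 * m ≤ m * n := by
  intro m
  induction m with
  | zero => intro _; simp
  | succ m ih =>
    intro h
    have h1 := ih (fun k hk => h k (by omega))
    have h2 := h m (by omega)
    rw [Finset.sum_range_succ]
    nlinarith

private theorem count_tel (l : ℕ → ℕ) (hl : ∀ k, l k ≤ l (k + 1)) : ∀ m : ℕ,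
    ∑ k ∈ Finset.range m, (l (k + 1) - l k) + l 0 = l m := by
  intro m
  induction m with
  | zero => simp
  | succ m ih =>
    rw [Finset.sum_range_succ]
    have := hl m
    omega

private theorem count_low (l : ℕ → ℕ) (ρ : ℕ) (h0 : l 0 = 1)
    (h2 : ∀ k, 1 ≤ k → k < ρ → l (k - 1) + 2 ≤ l k) : ∀ k, k < ρ → 1 + 2 * k ≤ l k := by
  intro k
  induction k with
  | zero => intro _; omega
  | succ k ih =>
    intro hk
    have h3 := ih (by omega)
    have h4 := h2 (k + 1) (by omega) hk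
    rw [Nat.add_sub_cancel] at h4
    omega

theorem count [Finite V] (L : ℕ → Set V) (T : Set V) (r : V) (ρ : ℕ)
    (hmono : ∀ k, L k ⊆ L (k + 1)) (h0 : L 0 = {r}) (hρ : L ρ = Set.univ)
    (hmin : ρ = 0 ∨ L (ρ - 1) ≠ Set.univ)
    (h2 : ∀ k, 1 ≤ k → k < ρ → 2 ≤ (L k \ L (k - 1)).ncard) :
    ∑ k ∈ Finset.range ρ, ((L (k + 1) \ L k).ncard + (T \ L (k + 1)).ncard) ≤
      min (Nat.card V ^ 2 / 4) (Nat.card V - 1 + T.ncard * (Nat.card V / 2 - 1)) := by
  classical
  rcases Nat.eq_zero_or_pos ρ with hρ0 | hρ0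
  · subst hρ0
    simp
  obtain ⟨m, rfl⟩ : ∃ m, ρ = m + 1 := ⟨ρ - 1, by omega⟩
  set n := Nat.card V with hn
  set l : ℕ → ℕ := fun k => (L k).ncard with hl
  have hfin : ∀ s : Set V, s.Finite := fun s => Set.toFinite s
  have hd : ∀ k, (L (k + 1) \ L k).ncard = l (k + 1) - l k := fun k =>
    Set.ncard_diff (hmono k) (hfin _)
  have hle : ∀ k, l k ≤ l (k + 1) := fun k => Set.ncard_le_ncard (hmono k) (hfin _)
  have hl0 : l 0 = 1 := by
    change (L 0).ncard = 1
    rw [h0, Set.ncard_singleton]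
  have hlρ : l (m + 1) = n := by
    change (L (m + 1)).ncard = n
    rw [hρ, Set.ncard_univ]
  have hlow : ∀ k, k < m + 1 → 1 + 2 * k ≤ l k := by
    apply count_low l (m + 1) hl0
    intro k hk1 hk2
    have h3 := h2 k hk1 hk2
    obtain ⟨j, rfl⟩ : ∃ j, k = j + 1 := ⟨k - 1, by omega⟩
    rw [Nat.add_sub_cancel, hd j] at h3
    rw [Nat.add_sub_cancel]
    omega
  have hn2 : 2 * (m + 1) ≤ n := by
    rcases hmin with h | h
    · omega
    · rw [Nat.add_sub_cancel] at h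
      have h3 : (L m).ncard < n := by
        rw [hn, ← Set.ncard_univ]
        exact Set.ncard_lt_ncard (Set.ssubset_univ_iff.2 h) (hfin _)
      have h4 := hlow m (by omega)
      have h5 : l m < n := h3
      omega
  have htel : ∑ k ∈ Finset.range (m + 1), (l (k + 1) - l k) = n - 1 := by
    have := count_tel l hle (m + 1)
    rw [hl0, hlρ] at this
    omega
  set a : ℕ → ℕ := fun k => (T \ L (k + 1)).ncard with ha
  have hT : ∀ k, a k ≤ T.ncard := fun k => Set.ncard_le_ncard Set.diff_subset (hfin _)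
  have ham : a m = 0 := by
    change (T \ L (m + 1)).ncard = 0
    rw [hρ, Set.diff_univ, Set.ncard_empty]
  have hak : ∀ k, k < m → a k + 3 + 2 * k ≤ n := by
    intro k hk
    have h3 : a k ≤ ((L (k + 1))ᶜ).ncard :=
      Set.ncard_le_ncard (fun x hx => hx.2) (hfin _)
    have h4 : (L (k + 1)).ncard + ((L (k + 1))ᶜ).ncard = n :=
      Set.ncard_add_ncard_compl _ (hfin _) (hfin _)
    have h5 := hlow (k + 1) (by omega)
    have h6 : l (k + 1) = (L (k + 1)).ncard := rfl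
    omega
  have hsum : ∑ k ∈ Finset.range (m + 1), ((L (k + 1) \ L k).ncard + (T \ L (k + 1)).ncard) =
      (n - 1) + ∑ k ∈ Finset.range m, a k := by
    rw [Finset.sum_add_distrib, Finset.sum_congr rfl (fun k _ => hd k), htel]
    congr 1
    rw [Finset.sum_range_succ]
    change ∑ k ∈ Finset.range m, a k + a m = _
    rw [ham, add_zero]
  rw [hsum]
  apply le_min
  · have h3 := count_sum a n m hak
    rw [Nat.le_div_iff_mul_le (by norm_num)]
    obtain ⟨d, hd'⟩ : ∃ d, n = 2 * (m + 1) + d := ⟨n - 2 * (m + 1), by omega⟩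
    rw [hd'] at h3 ⊢
    have h4 : 2 * (m + 1) + d - 1 = 2 * m + 1 + d := by omega
    rw [h4]
    nlinarith [Nat.zero_le (d * d)]
  · have h3 : ∑ k ∈ Finset.range m, a k ≤ m * T.ncard := by
      calc ∑ k ∈ Finset.range m, a k ≤ ∑ k ∈ Finset.range m, T.ncard :=
            Finset.sum_le_sum (fun k _ => hT k)
        _ = m * T.ncard := by rw [Finset.sum_const, Finset.card_range, smul_eq_mul]
    have h4 : m ≤ n / 2 - 1 := by omega
    have h5 : m * T.ncard ≤ (n / 2 - 1) * T.ncard := Nat.mul_le_mul_right _ h4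
    rw [mul_comm T.ncard]
    omega

end Pool.Agent.CDN
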