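import Mathlib

/-!
# Circuit walks in dual network flow polyhedra: definitions (MP_c5fcd0_co)

`s t : E → V` are the tail and the head maps of a digraph. The slack space of a dual network flow
polyhedron, based at a feasible point `y`, is `PolyY s t y = {x | 0 ≤ x, x = y + tens s t h}`,
where `tens s t h a = h (t a) - h (s a)`.
-/

set_option autoImplicit false

namespace Pool.Agent.CDN

variable {V E : Type*}

/-- the tension (potential difference) of `h` -/
def tens (s t : E → V) (h : V → ℝ) : E → ℝ := fun a => h (t a) - h (s a)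

/-- two nodes joined by an arc, in either direction -/
def Adj (s t : E → V) (u v : V) : Prop := ∃ a, (s a = u ∧ t a = v) ∨ (s a = v ∧ t a = u)

/-- the digraph is connected -/
def GConn (s t : E → V) : Prop := ∀ u v : V, Relation.ReflTransGen (Adj s t) u v

/-- `u` and `v` are joined by an undirected path inside the set `U` (for `u ∈ U`) -/
def ConnIn (s t : E → V) (U : Set V) (u v : V) : Prop :=
  Relation.ReflTransGen (fun a b => Adj s t a b ∧ a ∈ U ∧ b ∈ U) u v

/-- feasible points of the system, based at `y` -/
def PolyY (s t : E → V) (y : E → ℝ) : Set (E → ℝ) :=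
  {x | 0 ≤ x ∧ ∃ h : V → ℝ, x = y + tens s t h}

/-- a nonzero tension of minimal support -/
def ElemT (s t : E → V) (g : E → ℝ) : Prop :=
  (∃ h : V → ℝ, g = tens s t h) ∧ g ≠ 0 ∧
    ∀ h : V → ℝ, tens s t h ≠ 0 →
      Function.support (tens s t h) ⊆ Function.support g →
        Function.support g ⊆ Function.support (tens s t h)

/-- one maximal circuit step from `x` to `x'` -/
def StepT (s t : E → V) (y x x' : E → ℝ) : Prop :=
  x ∈ PolyY s t y ∧ x' ∈ PolyY s t y ∧ ElemT s t (x' - x) ∧
    ∀ ε : ℝ, 0 < ε → x + (1 + ε) • (x' - x) ∉ PolyY s t y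

/-- a circuit walk with `k` steps from `x` to `x'` -/
def WalkT (s t : E → V) (y : E → ℝ) (k : ℕ) (x x' : E → ℝ) : Prop :=
  ∃ w : ℕ → E → ℝ, w 0 = x ∧ w k = x' ∧ ∀ i < k, StepT s t y (w i) (w (i + 1))

/-- the arcs with `y a = 0`, as a relation on the nodes -/
def ZArc (s t : E → V) (y : E → ℝ) (u v : V) : Prop := ∃ a, y a = 0 ∧ s a = u ∧ t a = v

/-- everything reachable from `K` along `R` -/
def clZ (R : V → V → Prop) (K : Set V) : Set V := {v | ∃ u ∈ K, Relation.ReflTransGen R u v}

/-- a transit node has an entering and a leaving arc -/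
def Transit (s t : E → V) (v : V) : Prop := (∃ a, s a = v) ∧ (∃ a, t a = v)

/-- the relation `R` or its reverse -/
def rel (R : V → V → Prop) : Bool → V → V → Prop
  | true => R
  | false => fun a b => R b a

/-- the direction used in phase `k + 1`, if phase `1` uses `τ` -/
def typ (τ : Bool) (k : ℕ) : Bool := if k % 2 = 0 then τ else !τ

/-- the node set absorbed after `k` phases -/
def lay (R : V → V → Prop) (τ : Bool) (K : Set V) : ℕ → Set V
  | 0 => K
  | k + 1 => clZ (rel R (typ τ k)) (lay R τ K k)

end Pool.Agent.CDN
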