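import Pool.Agent.CDN.Defs

set_option autoImplicit false

namespace Pool.Agent.CDN


variable {V E : Type*}

theorem find_bond (s t : E → V) (hG : GConn s t) (R S0 : Set V) (r q : V)
    (hr : r ∈ R) (hq : q ∈ S0) (hdisj : ∀ v ∈ R, v ∉ S0)
    (hR : ∀ v ∈ R, ConnIn s t R r v) :
    ∃ S : Set V, q ∈ S ∧ (∀ v ∈ R, v ∉ S) ∧ (∀ u ∈ S, ConnIn s t S q u) ∧
      (∀ u ∉ S, ConnIn s t Sᶜ r u) ∧
      (∀ a, t a ∈ S → s a ∉ S → t a ∈ S0 ∧ s a ∉ S0) := by
  classical
  set S1 : Set V := {v | v ∈ S0 ∧ ConnIn s t S0 q v} with hS1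
  set C : Set V := {v | v ∉ S1 ∧ ConnIn s t S1ᶜ r v} with hC
  have hqS1 : q ∈ S1 := ⟨hq, Relation.ReflTransGen.refl⟩
  have hrS1 : r ∉ S1 := fun h => hdisj r hr h.1
  have adj_symm : ∀ {a b : V}, Adj s t a b → Adj s t b a := by
    rintro a b ⟨e, he⟩
    exact ⟨e, he.symm⟩
  -- paths in S0 from q stay in S1
  have hS1conn : ∀ u, ConnIn s t S0 q u → ConnIn s t S1 q u := by
    intro u hu
    unfold ConnIn at hu ⊢
    induction hu with
    | refl => exact Relation.ReflTransGen.refl
    | tail h1 h2 ih =>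
      refine ih.tail ⟨h2.1, ⟨h2.2.1, h1⟩, ⟨h2.2.2, h1.tail h2⟩⟩
  have hCconn : ∀ u, ConnIn s t S1ᶜ r u → ConnIn s t C r u := by
    intro u hu
    unfold ConnIn at hu ⊢
    induction hu with
    | refl => exact Relation.ReflTransGen.refl
    | tail h1 h2 ih =>
      refine ih.tail ⟨h2.1, ⟨h2.2.1, h1⟩, ⟨h2.2.2, h1.tail h2⟩⟩
  have hS1S : ∀ v ∈ S1, v ∈ Cᶜ := fun v hv hvC => hvC.1 hv
  refine ⟨Cᶜ, hS1S q hqS1, ?_, ?_, ?_, ?_⟩
  · intro v hv hvC
    apply hvC
    refine ⟨fun h => hdisj v hv h.1, ?_⟩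
    have := hR v hv
    unfold ConnIn at this ⊢
    refine Relation.ReflTransGen.mono ?_ _ _ this
    rintro a b ⟨h1, h2, h3⟩
    exact ⟨h1, fun h => hdisj a h2 h.1, fun h => hdisj b h3 h.1⟩
  · -- connectivity of the complement of C
    have key : ∀ w, Relation.ReflTransGen (Adj s t) q w → w ∈ C ∨ ConnIn s t Cᶜ q w := by
      intro w hw
      induction hw with
      | refl => exact Or.inr Relation.ReflTransGen.refl
      | @tail w w' h1 h2 ih =>
        by_cases hw' : w' ∈ C
        · exact Or.inl hw'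
        · right
          rcases ih with hwC | hwS
          · -- w in C, w' not in C: w' in S1
            have hw'1 : w' ∈ S1 := by
              by_contra hcon
              exact hw' ⟨hcon, hwC.2.tail ⟨h2, hwC.1, hcon⟩⟩
            have := hS1conn w' hw'1.2
            unfold ConnIn at this ⊢
            refine Relation.ReflTransGen.mono ?_ _ _ this
            rintro a b ⟨h1, h2, h3⟩
            exact ⟨h1, hS1S a h2, hS1S b h3⟩
          · by_cases hwC : w ∈ C
            · have hw'1 : w' ∈ S1 := by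
                by_contra hcon
                exact hw' ⟨hcon, hwC.2.tail ⟨h2, hwC.1, hcon⟩⟩
              have := hS1conn w' hw'1.2
              unfold ConnIn at this ⊢
              refine Relation.ReflTransGen.mono ?_ _ _ this
              rintro a b ⟨h1, h2, h3⟩
              exact ⟨h1, hS1S a h2, hS1S b h3⟩
            · exact hwS.tail ⟨h2, hwC, hw'⟩
    intro u hu
    rcases key u (hG q u) with h | h
    · exact absurd h hu
    · exact h
  · intro u hu
    have huC : u ∈ C := by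
      by_contra h
      exact hu h
    have := hCconn u huC.2
    unfold ConnIn at this ⊢
    refine Relation.ReflTransGen.mono ?_ _ _ this
    rintro a b ⟨h1, h2, h3⟩
    exact ⟨h1, fun h => h h2, fun h => h h3⟩
  · intro a hta hsa
    have hsC : s a ∈ C := by
      by_contra h
      exact hsa h
    have hadj : Adj s t (s a) (t a) := ⟨a, Or.inl ⟨rfl, rfl⟩⟩
    have htS1 : t a ∈ S1 := by
      by_contra hcon
      exact hta ⟨hcon, hsC.2.tail ⟨hadj, hsC.1, hcon⟩⟩
    refine ⟨htS1.1, ?_⟩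
    intro hs0
    exact hsC.1 ⟨hs0, htS1.2.tail ⟨adj_symm hadj, htS1.1, hs0⟩⟩

end Pool.Agent.CDN
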