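import Pool.Agent.CDN.Defs

/-!
# A good root (MP_c5fcd0_co)

A purely combinatorial statement on a relation `R` on a finite nonempty type `V` that is connected
(`∀ u v, ReflTransGen (fun a b => R a b ∨ R b a) u v`). Write `L τ K k = lay R τ K k`.

Basic facts: `K ⊆ clZ R K`; `clZ` is monotone in `K`; `clZ R (clZ R K) = clZ R K`;
`L τ K k ⊆ L τ K (k + 1)`; `lay_shift`: `L τ K (k + 1) = L (!τ) (clZ (rel R τ) K) k` (induction
on `k`, `typ (!τ) k = typ τ (k + 1)`, `typ τ 0 = τ`); monotone in `K`.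

`exists_full`: for every `r`, `τ` there is `k` with `L τ {r} k = univ`: the sequence is monotone
in a finite type, so `L τ {r} (k + 2) = L τ {r} k` for some `k` (e.g. the `ncard` cannot
increase `Nat.card V + 1` times); then the set `L τ {r} k` is closed under `R` and its reverse,
and contains `r`, so it is everything by connectedness.

`good_root`: choose `(ρ, r, τ)` with `L τ {r} ρ = univ` and `ρ` minimal (over all `r`, `τ`;
`Nat.find`). The second conclusion is immediate from the minimality.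
Suppose `1 ≤ k < ρ` and `(L τ {r} k \ L τ {r} (k - 1)).ncard ≤ 1`; so there is `w ∈ L τ {r} k`
with `L τ {r} k ⊆ L τ {r} (k - 1) ∪ {w}` (if the difference is empty take `w = r`).
Claim: there is `u` with `r ∈ clZ (rel R (!τ)) {u}` and `w ∈ L (!τ) {u} (k - 1)`.
 Proof of the claim, by induction on `k ≥ 1`, for all `w ∈ L τ {r} k`: `k = 1`:
 `w ∈ clZ (rel R τ) {r}`, so `ReflTransGen (rel R τ) r w`; take `u = w`: reversing the path,
 `r ∈ clZ (rel R (!τ)) {w}`, and `w ∈ {w} = L (!τ) {w} 0`. `k + 1`: `w` is reached by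
 `rel R (typ τ k)` from some `w0 ∈ L τ {r} k`; take the `u` of `w0`: `w0 ∈ L (!τ) {u} (k - 1)`, and
 `typ (!τ) (k - 1) = typ τ k`, so `w ∈ L (!τ) {u} k`.
Put `N j = L (!τ) {u} j`. Since `r ∈ clZ (rel R (!τ)) {u} = N 1`, we have (monotone, `lay_shift`)
`L τ {r} j ⊆ L τ (N 1) j = N (j + 1)` for all `j`. In particular `L τ {r} (k - 1) ⊆ N k`, and
`w ∈ N (k - 1) ⊆ N k`; so `L τ {r} k ⊆ N k`. Moreover `N k` is closed under
`rel R (typ (!τ) (k - 1)) = rel R (typ τ k)` (`k ≥ 1`, idempotence), so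
`L τ {r} (k + 1) = clZ (rel R (typ τ k)) (L τ {r} k) ⊆ N k`. By induction
`L τ {r} (j + 1) ⊆ N j` for all `j ≥ k`
(the step uses `typ τ (j + 1) = typ (!τ) j`). With `j = ρ - 1 ≥ k`: `N (ρ - 1) = univ`, which
contradicts the minimality of `ρ`.
-/

set_option autoImplicit false

namespace Pool.Agent.CDN

variable {V : Type*}

theorem subset_clZ (R : V → V → Prop) (K : Set V) : K ⊆ clZ R K :=
  fun v hv => ⟨v, hv, Relation.ReflTransGen.refl⟩

private theorem clZ_mono (R : V → V → Prop) {K L : Set V} (h : K ⊆ L) : clZ R K ⊆ clZ R L :=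
  fun _ ⟨u, hu, hr⟩ => ⟨u, h hu, hr⟩

private theorem clZ_idem (R : V → V → Prop) (K : Set V) : clZ R (clZ R K) ⊆ clZ R K :=
  fun _ ⟨_, ⟨w, hw, hwu⟩, huv⟩ => ⟨w, hw, hwu.trans huv⟩

theorem lay_mono_succ (R : V → V → Prop) (τ : Bool) (K : Set V) (k : ℕ) :
    lay R τ K k ⊆ lay R τ K (k + 1) :=
  subset_clZ _ _

private theorem typ_succ (τ : Bool) (k : ℕ) : typ τ (k + 1) = typ (!τ) k := by
  unfold typ
  by_cases h : k % 2 = 0
  · have h1 : ¬ (k + 1) % 2 = 0 := by omega
    rw [if_neg h1, if_pos h]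
  · have h1 : (k + 1) % 2 = 0 := by omega
    rw [if_pos h1, if_neg h, Bool.not_not]

private theorem typ_zero (τ : Bool) : typ τ 0 = τ := by
  simp [typ]

private theorem typ_not (τ : Bool) (k : ℕ) : typ (!τ) k = !(typ τ k) := by
  unfold typ
  split_ifs <;> rfl

private theorem lay_shift (R : V → V → Prop) (τ : Bool) (K : Set V) (k : ℕ) :
    lay R τ K (k + 1) = lay R (!τ) (clZ (rel R τ) K) k := by
  induction k with
  | zero =>
    change clZ (rel R (typ τ 0)) K = clZ (rel R τ) K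
    rw [typ_zero]
  | succ k ih =>
    change clZ (rel R (typ τ (k + 1))) (lay R τ K (k + 1)) =
      clZ (rel R (typ (!τ) k)) (lay R (!τ) (clZ (rel R τ) K) k)
    rw [ih, typ_succ]

private theorem lay_mono (R : V → V → Prop) (τ : Bool) {K L : Set V} (h : K ⊆ L) (k : ℕ) :
    lay R τ K k ⊆ lay R τ L k := by
  induction k with
  | zero => exact h
  | succ k ih => exact clZ_mono _ ih

private theorem exists_full [Finite V] (R : V → V → Prop)
    (hconn : ∀ u v : V, Relation.ReflTransGen (fun a b => R a b ∨ R b a) u v)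
    (r : V) (τ : Bool) : ∃ k, lay R τ {r} k = Set.univ := by
  let a : ℕ →o Set V := ⟨lay R τ {r}, monotone_nat_of_le_succ (lay_mono_succ R τ {r})⟩
  obtain ⟨n, hn⟩ := WellFoundedGT.monotone_chain_condition a
  have h1 : lay R τ {r} n = lay R τ {r} (n + 1) := hn (n + 1) (Nat.le_succ n)
  have h2 : lay R τ {r} n = lay R τ {r} (n + 2) := hn (n + 2) (by omega)
  refine ⟨n, ?_⟩
  have c1 : clZ (rel R (typ τ n)) (lay R τ {r} n) ⊆ lay R τ {r} n := by
    conv_rhs => rw [h1]
    exact subset_rfl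
  have c2 : clZ (rel R (!(typ τ n))) (lay R τ {r} n) ⊆ lay R τ {r} n := by
    have h3 : lay R τ {r} (n + 2) = clZ (rel R (!(typ τ n))) (lay R τ {r} n) := by
      change clZ (rel R (typ τ (n + 1))) (lay R τ {r} (n + 1)) = _
      rw [← h1, typ_succ, typ_not]
    rw [← h3, ← h2]
  have hc : ∀ b : Bool, clZ (rel R b) (lay R τ {r} n) ⊆ lay R τ {r} n := by
    intro b
    cases ht : typ τ n <;> rw [ht] at c1 c2 <;> cases b <;> assumption
  have hr : r ∈ lay R τ {r} n := by
    have : ∀ m, r ∈ lay R τ {r} m := by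
      intro m
      induction m with
      | zero => exact rfl
      | succ m ih => exact lay_mono_succ R τ {r} m ih
    exact this n
  apply Set.eq_univ_of_forall
  intro v
  have hv := hconn r v
  induction hv with
  | refl => exact hr
  | @tail b c _ hbc ih =>
    rcases hbc with hbc | hbc
    · exact hc true ⟨b, ih, Relation.ReflTransGen.single hbc⟩
    · exact hc false ⟨b, ih, Relation.ReflTransGen.single hbc⟩

private theorem rel_not_swap (R : V → V → Prop) (τ : Bool) {a b : V}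
    (h : Relation.ReflTransGen (rel R τ) a b) :
    Relation.ReflTransGen (rel R (!τ)) b a := by
  have h1 := h.swap
  cases τ <;> exact h1

private theorem claim_aux (R : V → V → Prop) (τ : Bool) (r : V) (m : ℕ) :
    ∀ w ∈ lay R τ {r} (m + 1), ∃ u, r ∈ clZ (rel R (!τ)) {u} ∧ w ∈ lay R (!τ) {u} m := by
  induction m with
  | zero =>
    rintro w ⟨u, hu, hw⟩
    have hu' : u = r := hu
    subst hu'
    rw [typ_zero] at hw
    exact ⟨w, ⟨w, rfl, rel_not_swap R τ hw⟩, rfl⟩
  | succ m ih =>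
    rintro w ⟨w0, hw0, hw⟩
    obtain ⟨u, hu1, hu2⟩ := ih w0 hw0
    refine ⟨u, hu1, ?_⟩
    rw [typ_succ] at hw
    exact ⟨w0, hu2, hw⟩

theorem good_root [Finite V] [Nonempty V] (R : V → V → Prop)
    (hconn : ∀ u v : V, Relation.ReflTransGen (fun a b => R a b ∨ R b a) u v) :
    ∃ (r : V) (τ : Bool) (ρ : ℕ), lay R τ {r} ρ = Set.univ ∧
      (ρ = 0 ∨ lay R τ {r} (ρ - 1) ≠ Set.univ) ∧
      ∀ k, 1 ≤ k → k < ρ → 2 ≤ (lay R τ {r} k \ lay R τ {r} (k - 1)).ncard := by
  classical
  have hex : ∃ ρ : ℕ, ∃ (r : V) (τ : Bool), lay R τ {r} ρ = Set.univ := by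
    obtain ⟨r⟩ := ‹Nonempty V›
    obtain ⟨k, hk⟩ := exists_full R hconn r true
    exact ⟨k, r, true, hk⟩
  obtain ⟨r, τ, hr⟩ := Nat.find_spec hex
  have hmin : ∀ m, m < Nat.find hex → ∀ (r' : V) (τ' : Bool), lay R τ' {r'} m ≠ Set.univ :=
    fun m hm r' τ' h => Nat.find_min hex hm ⟨r', τ', h⟩
  generalize Nat.find hex = ρ at hr hmin
  refine ⟨r, τ, ρ, hr, ?_, ?_⟩
  · rcases Nat.eq_zero_or_pos ρ with h | h
    · exact Or.inl h
    · exact Or.inr (hmin (ρ - 1) (by omega) r τ)
  · intro k hk1 hk2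
    by_contra hlt
    obtain ⟨m, rfl⟩ : ∃ m, k = m + 1 := ⟨k - 1, by omega⟩
    rw [Nat.add_sub_cancel] at hlt
    have hle : (lay R τ {r} (m + 1) \ lay R τ {r} m).ncard ≤ 1 := by omega
    rw [Set.ncard_le_one_iff_eq] at hle
    have hrm : ∀ j, r ∈ lay R τ {r} j := by
      intro j
      induction j with
      | zero => exact rfl
      | succ j ih => exact lay_mono_succ R τ {r} j ih
    obtain ⟨w, hw, hsub⟩ : ∃ w ∈ lay R τ {r} (m + 1),
        lay R τ {r} (m + 1) ⊆ lay R τ {r} m ∪ {w} := by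
      rcases hle with h | ⟨w, h⟩
      · exact ⟨r, hrm _, fun x hx => Or.inl (by
          by_contra hn
          have : x ∈ (lay R τ {r} (m + 1) \ lay R τ {r} m) := ⟨hx, hn⟩
          rw [h] at this
          exact this)⟩
      · have hw : w ∈ (lay R τ {r} (m + 1) \ lay R τ {r} m) := by
          rw [h]; rfl
        refine ⟨w, hw.1, fun x hx => ?_⟩
        by_cases hn : x ∈ lay R τ {r} m
        · exact Or.inl hn
        · right
          have : x ∈ (lay R τ {r} (m + 1) \ lay R τ {r} m) := ⟨hx, hn⟩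
          rw [h] at this
          exact this
    obtain ⟨u, hu1, hu2⟩ := claim_aux R τ r m w hw
    have h1 : ∀ j, lay R τ {r} j ⊆ lay R (!τ) {u} (j + 1) := by
      intro j
      rw [lay_shift, Bool.not_not]
      exact lay_mono R τ (Set.singleton_subset_iff.2 hu1) j
    have h2 : lay R τ {r} (m + 1) ⊆ lay R (!τ) {u} (m + 1) := by
      intro x hx
      rcases hsub hx with h | h
      · exact h1 m h
      · have h' : x = w := h
        rw [h']
        exact lay_mono_succ R (!τ) {u} m hu2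
    have h3 : lay R τ {r} (m + 1 + 1) ⊆ lay R (!τ) {u} (m + 1) := by
      have e1 : lay R τ {r} (m + 1 + 1) ⊆
          clZ (rel R (typ (!τ) m)) (lay R (!τ) {u} (m + 1)) := by
        change clZ (rel R (typ τ (m + 1))) (lay R τ {r} (m + 1)) ⊆ _
        rw [typ_succ]
        exact clZ_mono _ h2
      exact e1.trans (clZ_idem _ _)
    have h4 : ∀ j, lay R τ {r} (m + 1 + j + 1) ⊆ lay R (!τ) {u} (m + 1 + j) := by
      intro j
      induction j with
      | zero => exact h3
      | succ j ih =>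
        change clZ (rel R (typ τ (m + 1 + j + 1))) (lay R τ {r} (m + 1 + j + 1)) ⊆
          clZ (rel R (typ (!τ) (m + 1 + j))) (lay R (!τ) {u} (m + 1 + j))
        rw [typ_succ τ (m + 1 + j)]
        exact clZ_mono _ ih
    obtain ⟨j, hj⟩ : ∃ j, ρ = m + 1 + j + 1 := ⟨ρ - (m + 2), by omega⟩
    have h5 := h4 j
    rw [← hj, hr] at h5
    exact hmin (m + 1 + j) (by omega) u (!τ) (Set.univ_subset_iff.1 h5)

end Pool.Agent.CDN
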