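import Pool.Agent.CDN.Step

/-!
# One phase (MP_c5fcd0_co)

Notation: `K' = clZ (ZArc s t y) K`, `c = h r`, `x = y + tens s t h`.

Facts for every `h` with `0 ≤ y + tens s t h` and `h v = h r` on `K`:
(F1) along an arc with `y a = 0`: `h (s a) ≤ h (t a)`; hence `c ≤ h v` for all `v ∈ K'`, and all
     nodes on the `ZArc`-path from `K` to a node `v ∈ K'` with `h v = c` have `h = c`.
(F2) along a tight arc (`x a = 0`): `h (t a) = h (s a) - y a ≤ h (s a)` (`0 ≤ y`).
Put `Kc h = {v | v ∈ K' ∧ h v = c}` (it contains `K`), and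
`R h = clZ (fun u v => ∃ a, (y + tens s t h) a = 0 ∧ s a = u ∧ t a = v) (Kc h)`. By (F2), `h ≤ c`
on `R h`. `R h` is connected: from `r` to any node of `K` inside `K ⊆ R h` (`hK`), from `K` to any
node of `Kc h` along the `ZArc`-path, which stays in `Kc h` by (F1), and then along tight arcs.

`phase_step`: suppose that some `q ∈ K'` has `h q ≠ c`, so `c < h q` and `q ∉ R h`. Put
`S0 = {v | v ∉ R h ∧ (v = q ∨ ∃ a, s a = v)}` and take `S` from `find_bond` (with `R h`, `S0`,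
`r`, `q`). Every arc entering `S` (`t a ∈ S`, `s a ∉ S`) has `t a ∈ S0` and `s a ∉ S0`; since
`s a` has a leaving arc (`a` itself), `s a ∈ R h`; so `(y + tens s t h) a ≠ 0` (otherwise
`t a ∈ R h`). There is an entering arc: the `ZArc`-path from `K` (outside `S`, since `K ⊆ R h`)
to `q ∈ S` must enter `S`. Apply `max_step` (`p = r`) and get `h'`, `a1`. Then:
* `h' = h` on `R h` (outside `S`), in particular `h' r = c` and `h' v = c` on `K`;
* `Kc h ⊆ Kc h'`; the tight arcs inside the complement of `S` stay tight, so `R h ⊆ R h'`;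
* so `M h' ≤ M h` termwise, where `M h = (K' \ Kc h).ncard + ({v | Transit s t v} \ (K' ∪ R h)).ncard`
  (all sets are finite, `Set.ncard_le_ncard`);
* strict decrease: `s a1 ∈ R h ⊆ R h'` and `(y + tens s t h') a1 = 0`, so `v := t a1 ∈ R h'`,
  while `v ∈ S` gives `v ∉ R h`. If `v ∈ K'`: by (F1) and (F2) for `h'`, `h' v = c`, so
  `v ∈ Kc h'`, but `v ∉ Kc h` (as `v ∉ R h`): the first term drops
  (`Set.ncard_lt_ncard`). If `v ∉ K'`: `v ≠ q`, `v ∈ S0`, so `v` has a leaving arc, and `a1`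
  enters it, so `v` is a transit node: the second term drops.
So `M h' < M h`.

`phase`: induction on `M h` (strong induction): if `h v = c` on all of `K'`, take the walk with
`0` steps; otherwise use `phase_step` and append (a walk `w` of length `j` from `x'` gives the
walk `0 ↦ x, i + 1 ↦ w i` of length `j + 1`). The length is at most `M h` of the start, and
`Kc h ⊇ K`, so the first term is at most `(K' \ K).ncard`, and the second one is at most
`({v | Transit s t v} \ K').ncard`.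
-/

set_option autoImplicit false

namespace Pool.Agent.CDN

variable {V E : Type*}

/-- tight arcs as a relation -/
def TArc (s t : E → V) (y : E → ℝ) (h : V → ℝ) (u v : V) : Prop :=
  ∃ a, (y + tens s t h) a = 0 ∧ s a = u ∧ t a = v

/-- the nodes of `K'` at the height of `r` -/
def Kc (s t : E → V) (y : E → ℝ) (K : Set V) (r : V) (h : V → ℝ) : Set V :=
  {v | v ∈ clZ (ZArc s t y) K ∧ h v = h r}

/-- the nodes reached from `Kc` by tight arcs -/
def Rt (s t : E → V) (y : E → ℝ) (K : Set V) (r : V) (h : V → ℝ) : Set V :=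
  clZ (TArc s t y h) (Kc s t y K r h)

/-- the measure of a state -/
noncomputable def Ms (s t : E → V) (y : E → ℝ) (K : Set V) (r : V) (h : V → ℝ) : ℕ :=
  (clZ (ZArc s t y) K \ Kc s t y K r h).ncard +
    ({v | Transit s t v} \ (clZ (ZArc s t y) K ∪ Rt s t y K r h)).ncard

private theorem mem_clZ_of {R : V → V → Prop} {K : Set V} {u v : V} (hu : u ∈ clZ R K)
    (huv : R u v) : v ∈ clZ R K := by
  obtain ⟨w, hw, hwu⟩ := hu
  exact ⟨w, hw, hwu.tail huv⟩

private theorem self_clZ {R : V → V → Prop} {K : Set V} {u : V} (hu : u ∈ K) : u ∈ clZ R K :=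
  ⟨u, hu, Relation.ReflTransGen.refl⟩

private theorem x_apply (s t : E → V) (y : E → ℝ) (h : V → ℝ) (a : E) :
    (y + tens s t h) a = y a + (h (t a) - h (s a)) := rfl

private theorem f1 (s t : E → V) (y : E → ℝ) (K : Set V) (r : V) (h : V → ℝ)
    (hx : 0 ≤ y + tens s t h) (hc : ∀ v ∈ K, h v = h r) :
    ∀ v ∈ clZ (ZArc s t y) K, h r ≤ h v := by
  rintro v ⟨u, hu, huv⟩
  induction huv with
  | refl => exact (hc u hu).ge
  | tail _ hwv ih =>
    obtain ⟨a, ha, rfl, rfl⟩ := hwv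
    have h1 := hx a
    rw [x_apply, ha] at h1
    have h2 : (0 : ℝ) ≤ 0 + (h (t a) - h (s a)) := h1
    linarith

private theorem f2 (s t : E → V) (y : E → ℝ) (hy : 0 ≤ y) (K : Set V) (r : V) (h : V → ℝ) :
    ∀ v ∈ Rt s t y K r h, h v ≤ h r := by
  rintro v ⟨u, hu, huv⟩
  induction huv with
  | refl => exact hu.2.le
  | tail _ hwv ih =>
    obtain ⟨a, ha, rfl, rfl⟩ := hwv
    have h1 : (0 : ℝ) ≤ y a := hy a
    rw [x_apply] at ha
    linarith

private theorem K_sub_Kc (s t : E → V) (y : E → ℝ) (K : Set V) (r : V) (h : V → ℝ)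
    (hc : ∀ v ∈ K, h v = h r) : K ⊆ Kc s t y K r h :=
  fun v hv => ⟨self_clZ hv, hc v hv⟩

private theorem Kc_sub_Rt (s t : E → V) (y : E → ℝ) (K : Set V) (r : V) (h : V → ℝ) :
    Kc s t y K r h ⊆ Rt s t y K r h :=
  fun _ hv => self_clZ hv

private theorem conn_mono (s t : E → V) {U W : Set V} (hUW : U ⊆ W) {u v : V}
    (h : ConnIn s t U u v) : ConnIn s t W u v := by
  unfold ConnIn at h ⊢
  induction h with
  | refl => exact Relation.ReflTransGen.refl
  | tail _ hab ih => exact ih.tail ⟨hab.1, hUW hab.2.1, hUW hab.2.2⟩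

private theorem adj_of (s t : E → V) (a : E) : Adj s t (s a) (t a) := ⟨a, Or.inl ⟨rfl, rfl⟩⟩

private theorem conn_Kc (s t : E → V) (y : E → ℝ) (K : Set V) (r : V)
    (hK : ∀ v ∈ K, ConnIn s t K r v) (h : V → ℝ)
    (hx : 0 ≤ y + tens s t h) (hc : ∀ v ∈ K, h v = h r) (u : V) (hu : u ∈ K) (v : V)
    (huv : Relation.ReflTransGen (ZArc s t y) u v) :
    h v ≤ h r → v ∈ Kc s t y K r h ∧ ConnIn s t (Rt s t y K r h) r v := by
  induction huv with
  | refl =>
    intro _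
    exact ⟨K_sub_Kc s t y K r h hc hu,
      conn_mono s t ((K_sub_Kc s t y K r h hc).trans (Kc_sub_Rt s t y K r h)) (hK u hu)⟩
  | @tail w v huw hwv ih =>
    intro hv
    have hvK : v ∈ clZ (ZArc s t y) K := ⟨u, hu, huw.tail hwv⟩
    have hwK : w ∈ clZ (ZArc s t y) K := ⟨u, hu, huw⟩
    have hle : h w ≤ h v := by
      obtain ⟨a, ha, rfl, rfl⟩ := hwv
      have h1 := hx a
      rw [x_apply, ha] at h1
      have h2 : (0 : ℝ) ≤ 0 + (h (t a) - h (s a)) := h1
      linarith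
    obtain ⟨h3, h4⟩ := ih (hle.trans hv)
    have hvc : v ∈ Kc s t y K r h :=
      ⟨hvK, le_antisymm hv (f1 s t y K r h hx hc v hvK)⟩
    refine ⟨hvc, h4.tail ?_⟩
    obtain ⟨a, ha, rfl, rfl⟩ := hwv
    exact ⟨adj_of s t a, Kc_sub_Rt s t y K r h h3, Kc_sub_Rt s t y K r h hvc⟩

private theorem conn_Rt (s t : E → V) (y : E → ℝ) (K : Set V) (r : V)
    (hK : ∀ v ∈ K, ConnIn s t K r v) (h : V → ℝ)
    (hx : 0 ≤ y + tens s t h) (hc : ∀ v ∈ K, h v = h r) :
    ∀ v ∈ Rt s t y K r h, ConnIn s t (Rt s t y K r h) r v := by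
  rintro v ⟨u, hu, huv⟩
  induction huv with
  | refl =>
    obtain ⟨u0, hu0, hp⟩ := hu.1
    exact (conn_Kc s t y K r hK h hx hc u0 hu0 u hp hu.2.le).2
  | @tail w v huw hwv ih =>
    have hw : w ∈ Rt s t y K r h := ⟨u, hu, huw⟩
    have hv : v ∈ Rt s t y K r h := ⟨u, hu, huw.tail hwv⟩
    refine ih.tail ?_
    obtain ⟨a, ha, rfl, rfl⟩ := hwv
    exact ⟨adj_of s t a, hw, hv⟩

private theorem exists_enter (s t : E → V) (y : E → ℝ) (S : Set V) (u q : V)
    (huq : Relation.ReflTransGen (ZArc s t y) u q) (hu : u ∉ S) :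
    q ∈ S → ∃ a, t a ∈ S ∧ s a ∉ S := by
  induction huq with
  | refl => exact fun h => absurd h hu
  | @tail w v _ hwv ih =>
    intro hv
    by_cases hw : w ∈ S
    · exact ih hw
    · obtain ⟨a, _, rfl, rfl⟩ := hwv
      exact ⟨a, hv, hw⟩

theorem phase_step [Finite V] [Finite E] (s t : E → V) (hG : GConn s t) (y : E → ℝ)
    (hy : 0 ≤ y) (K : Set V) (r : V) (hr : r ∈ K) (hK : ∀ v ∈ K, ConnIn s t K r v)
    (h : V → ℝ) (hx : 0 ≤ y + tens s t h) (hc : ∀ v ∈ K, h v = h r)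
    (q : V) (hq : q ∈ clZ (ZArc s t y) K) (hqc : h q ≠ h r) :
    ∃ h' : V → ℝ, StepT s t y (y + tens s t h) (y + tens s t h') ∧
      (∀ v ∈ K, h' v = h' r) ∧ Ms s t y K r h' < Ms s t y K r h := by
  classical
  have hKR : K ⊆ Rt s t y K r h := (K_sub_Kc s t y K r h hc).trans (Kc_sub_Rt s t y K r h)
  have hqR : q ∉ Rt s t y K r h := fun hqR =>
    hqc (le_antisymm (f2 s t y hy K r h q hqR) (f1 s t y K r h hx hc q hq))
  set S0 : Set V := {v | v ∉ Rt s t y K r h ∧ (v = q ∨ ∃ a, s a = v)} with hS0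
  obtain ⟨S, hqS, hRS, hSq, hSr, hent⟩ := find_bond s t hG (Rt s t y K r h) S0 r q (hKR hr)
    ⟨hqR, Or.inl rfl⟩ (fun v hv hv0 => hv0.1 hv) (conn_Rt s t y K r hK h hx hc)
  have hsa : ∀ a, t a ∈ S → s a ∉ S → s a ∈ Rt s t y K r h := by
    intro a h1 h2
    by_contra h3
    exact (hent a h1 h2).2 ⟨h3, Or.inr ⟨a, rfl⟩⟩
  have hpos : ∀ a, t a ∈ S → s a ∉ S → (y + tens s t h) a ≠ 0 := by
    intro a h1 h2 h3
    exact hRS (t a) (mem_clZ_of (hsa a h1 h2) ⟨a, h3, rfl, rfl⟩) h1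
  obtain ⟨u0, hu0, hu0q⟩ := hq
  obtain ⟨a0, ha0, ha0'⟩ := exists_enter s t y S u0 q hu0q (hRS u0 (hKR hu0)) hqS
  obtain ⟨h', a1, ha1, ha1', hz, hoff, _, hsame, hstep⟩ :=
    max_step s t hG y S r q (hRS r (hKR hr)) hqS hSq hSr h hx hpos a0 ha0 ha0'
  have hx' : 0 ≤ y + tens s t h' := hstep.2.1.1
  have hr' : h' r = h r := hoff r (hRS r (hKR hr))
  have hc' : ∀ v ∈ K, h' v = h' r := by
    intro v hv
    rw [hoff v (hRS v (hKR hv)), hr', hc v hv]
  have hKc : Kc s t y K r h ⊆ Kc s t y K r h' := by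
    intro v hv
    refine ⟨hv.1, ?_⟩
    rw [hoff v (hRS v (Kc_sub_Rt s t y K r h hv)), hr', hv.2]
  have hRt : Rt s t y K r h ⊆ Rt s t y K r h' := by
    rintro v ⟨u, hu, huv⟩
    induction huv with
    | refl => exact Kc_sub_Rt s t y K r h' (hKc hu)
    | @tail w v huw hwv ih =>
      refine mem_clZ_of ih ?_
      have hw : w ∈ Rt s t y K r h := ⟨u, hu, huw⟩
      have hv : v ∈ Rt s t y K r h := ⟨u, hu, huw.tail hwv⟩
      obtain ⟨a, ha, rfl, rfl⟩ := hwv
      refine ⟨a, ?_, rfl, rfl⟩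
      rw [hsame a (hRS _ hw) (hRS _ hv)]
      exact ha
  have hv1 : t a1 ∈ Rt s t y K r h' := mem_clZ_of (hRt (hsa a1 ha1 ha1')) ⟨a1, hz, rfl, rfl⟩
  have hv2 : t a1 ∉ Rt s t y K r h := fun hh => hRS _ hh ha1
  refine ⟨h', hstep, hc', ?_⟩
  have hA : clZ (ZArc s t y) K \ Kc s t y K r h' ⊆ clZ (ZArc s t y) K \ Kc s t y K r h :=
    Set.sdiff_subset_sdiff_right hKc
  have hB : {v | Transit s t v} \ (clZ (ZArc s t y) K ∪ Rt s t y K r h') ⊆
      {v | Transit s t v} \ (clZ (ZArc s t y) K ∪ Rt s t y K r h) :=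
    Set.sdiff_subset_sdiff_right (Set.union_subset_union_right _ hRt)
  unfold Ms
  by_cases hvK : t a1 ∈ clZ (ZArc s t y) K
  · have h1 : (clZ (ZArc s t y) K \ Kc s t y K r h').ncard <
        (clZ (ZArc s t y) K \ Kc s t y K r h).ncard := by
      refine Set.ncard_lt_ncard ⟨hA, ?_⟩ (Set.toFinite _)
      intro hsub
      have h2 : t a1 ∈ clZ (ZArc s t y) K \ Kc s t y K r h :=
        ⟨hvK, fun hh => hv2 (Kc_sub_Rt s t y K r h hh)⟩
      exact (hsub h2).2 ⟨hvK, le_antisymm (f2 s t y hy K r h' _ hv1)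
        (f1 s t y K r h' hx' hc' _ hvK)⟩
    have h2 := Set.ncard_le_ncard hB (Set.toFinite _)
    omega
  · have h1 : ({v | Transit s t v} \ (clZ (ZArc s t y) K ∪ Rt s t y K r h')).ncard <
        ({v | Transit s t v} \ (clZ (ZArc s t y) K ∪ Rt s t y K r h)).ncard := by
      refine Set.ncard_lt_ncard ⟨hB, ?_⟩ (Set.toFinite _)
      intro hsub
      have hq' : t a1 ≠ q := by
        intro hh
        rw [hh] at hvK
        exact hvK ⟨u0, hu0, hu0q⟩
      have h2 : t a1 ∈ {v | Transit s t v} \ (clZ (ZArc s t y) K ∪ Rt s t y K r h) := by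
        refine ⟨⟨?_, ⟨a1, rfl⟩⟩, ?_⟩
        · exact ((hent a1 ha1 ha1').1.2).resolve_left hq'
        · rintro (h3 | h3)
          · exact hvK h3
          · exact hv2 h3
      exact (hsub h2).2 (Or.inr hv1)
    have h2 := Set.ncard_le_ncard hA (Set.toFinite _)
    omega

private theorem phase_aux [Finite V] [Finite E] (s t : E → V) (hG : GConn s t) (y : E → ℝ)
    (hy : 0 ≤ y) (K : Set V) (r : V) (hr : r ∈ K) (hK : ∀ v ∈ K, ConnIn s t K r v) (n : ℕ) :
    ∀ (h : V → ℝ), Ms s t y K r h ≤ n → 0 ≤ y + tens s t h → (∀ v ∈ K, h v = h r) →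
    ∃ (h' : V → ℝ) (j : ℕ), 0 ≤ y + tens s t h' ∧
      (∀ v ∈ clZ (ZArc s t y) K, h' v = h' r) ∧ j ≤ Ms s t y K r h ∧
      WalkT s t y j (y + tens s t h) (y + tens s t h') := by
  induction n with
  | zero =>
    intro h hM hx hc
    by_cases hall : ∀ v ∈ clZ (ZArc s t y) K, h v = h r
    · exact ⟨h, 0, hx, hall, Nat.zero_le _, fun _ => y + tens s t h, rfl, rfl,
        fun i hi => absurd hi (Nat.not_lt_zero i)⟩
    · push Not at hall
      obtain ⟨q, hq, hqc⟩ := hall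
      obtain ⟨h1, _, _, hM1⟩ := phase_step s t hG y hy K r hr hK h hx hc q hq hqc
      omega
  | succ n ih =>
    intro h hM hx hc
    by_cases hall : ∀ v ∈ clZ (ZArc s t y) K, h v = h r
    · exact ⟨h, 0, hx, hall, Nat.zero_le _, fun _ => y + tens s t h, rfl, rfl,
        fun i hi => absurd hi (Nat.not_lt_zero i)⟩
    · push Not at hall
      obtain ⟨q, hq, hqc⟩ := hall
      obtain ⟨h1, hstep, hc1, hM1⟩ := phase_step s t hG y hy K r hr hK h hx hc q hq hqc
      obtain ⟨h', j, hx', hall', hj, w, hw0, hwj, hw⟩ :=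
        ih h1 (by omega) hstep.2.1.1 hc1
      refine ⟨h', j + 1, hx', hall', by omega,
        fun i => Nat.casesOn i (y + tens s t h) w, rfl, hwj, ?_⟩
      intro i hi
      cases i with
      | zero =>
        change StepT s t y (y + tens s t h) (w 0)
        rw [hw0]
        exact hstep
      | succ i => exact hw i (by omega)

theorem phase [Finite V] [Finite E] (s t : E → V) (hG : GConn s t) (y : E → ℝ)
    (hy : 0 ≤ y) (K : Set V) (r : V) (hr : r ∈ K) (hK : ∀ v ∈ K, ConnIn s t K r v)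
    (h : V → ℝ) (hx : 0 ≤ y + tens s t h) (hc : ∀ v ∈ K, h v = h r) :
    ∃ (h' : V → ℝ) (j : ℕ), 0 ≤ y + tens s t h' ∧
      (∀ v ∈ clZ (ZArc s t y) K, h' v = h' r) ∧
      j ≤ (clZ (ZArc s t y) K \ K).ncard +
        ({v | Transit s t v} \ clZ (ZArc s t y) K).ncard ∧
      WalkT s t y j (y + tens s t h) (y + tens s t h') := by
  obtain ⟨h', j, h1, h2, h3, h4⟩ := phase_aux s t hG y hy K r hr hK _ h le_rfl hx hc
  refine ⟨h', j, h1, h2, h3.trans ?_, h4⟩
  unfold Ms
  exact add_le_add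
    (Set.ncard_le_ncard (Set.sdiff_subset_sdiff_right (K_sub_Kc s t y K r h hc)) (Set.toFinite _))
    (Set.ncard_le_ncard (Set.sdiff_subset_sdiff_right Set.subset_union_left) (Set.toFinite _))

end Pool.Agent.CDN
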