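import Pool.Agent.CDN.Phase

/-!
# The reversed phase and the general phase (MP_c5fcd0_co)

Reversing all arcs: `tens t s (-h) = tens s t h`, `Adj t s = Adj s t`, `GConn t s ↔ GConn s t`,
`ConnIn t s = ConnIn s t`, `PolyY t s y = PolyY s t y`, `ElemT t s g ↔ ElemT s t g`,
`StepT t s y = StepT s t y`, `WalkT t s y = WalkT s t y`, `ZArc t s y u v ↔ ZArc s t y v u`,
`Transit t s v ↔ Transit s t v`. So `phase` for `(t, s)` and `-h` gives the statement for
`rel (ZArc s t y) false`.
-/

set_option autoImplicit false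

namespace Pool.Agent.CDN

variable {V E : Type*}

private theorem tens_swap (s t : E → V) (h : V → ℝ) : tens t s h = tens s t (-h) := by
  funext a
  simp only [tens, Pi.neg_apply]
  ring

private theorem adj_swap (s t : E → V) : Adj t s = Adj s t := by
  funext u v
  apply propext
  unfold Adj
  constructor
  · rintro ⟨a, h | h⟩
    · exact ⟨a, Or.inr ⟨h.2, h.1⟩⟩
    · exact ⟨a, Or.inl ⟨h.2, h.1⟩⟩
  · rintro ⟨a, h | h⟩
    · exact ⟨a, Or.inr ⟨h.2, h.1⟩⟩
    · exact ⟨a, Or.inl ⟨h.2, h.1⟩⟩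

private theorem polyY_swap (s t : E → V) (y : E → ℝ) : PolyY t s y = PolyY s t y := by
  ext x
  constructor
  · rintro ⟨h0, h, hx⟩
    exact ⟨h0, -h, by rw [hx, tens_swap s t]⟩
  · rintro ⟨h0, h, hx⟩
    exact ⟨h0, -h, by rw [hx, tens_swap s t (-h), neg_neg]⟩

private theorem elemT_swap {s t : E → V} {g : E → ℝ} (H : ElemT t s g) : ElemT s t g := by
  obtain ⟨⟨h, hg⟩, h0, hm⟩ := H
  refine ⟨⟨-h, by rw [hg, tens_swap]⟩, h0, ?_⟩
  intro k hk hs
  have h1 := hm (-k)
  rw [tens_swap, neg_neg] at h1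
  exact h1 hk hs

private theorem stepT_swap {s t : E → V} {y x x' : E → ℝ} (H : StepT t s y x x') :
    StepT s t y x x' := by
  obtain ⟨h1, h2, h3, h4⟩ := H
  rw [polyY_swap] at h1 h2 h4
  exact ⟨h1, h2, elemT_swap h3, h4⟩

private theorem walkT_swap {s t : E → V} {y : E → ℝ} {k : ℕ} {x x' : E → ℝ}
    (H : WalkT t s y k x x') : WalkT s t y k x x' := by
  obtain ⟨w, h0, hk, hw⟩ := H
  exact ⟨w, h0, hk, fun i hi => stepT_swap (hw i hi)⟩

private theorem zArc_swap (s t : E → V) (y : E → ℝ) :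
    ZArc t s y = rel (ZArc s t y) false := by
  funext u v
  apply propext
  unfold ZArc
  simp only [rel]
  constructor
  · rintro ⟨a, h1, h2, h3⟩
    exact ⟨a, h1, h3, h2⟩
  · rintro ⟨a, h1, h2, h3⟩
    exact ⟨a, h1, h3, h2⟩

private theorem transit_swap (s t : E → V) : {v | Transit t s v} = {v | Transit s t v} := by
  ext v
  simp only [Set.mem_ofPred_eq, Transit]
  exact and_comm

theorem phase_rel [Finite V] [Finite E] (s t : E → V) (hG : GConn s t) (y : E → ℝ)
    (hy : 0 ≤ y) (τ : Bool) (K : Set V) (r : V) (hr : r ∈ K)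
    (hK : ∀ v ∈ K, ConnIn s t K r v)
    (h : V → ℝ) (hx : 0 ≤ y + tens s t h) (hc : ∀ v ∈ K, h v = h r) :
    ∃ (h' : V → ℝ) (j : ℕ), 0 ≤ y + tens s t h' ∧
      (∀ v ∈ clZ (rel (ZArc s t y) τ) K, h' v = h' r) ∧
      j ≤ (clZ (rel (ZArc s t y) τ) K \ K).ncard +
        ({v | Transit s t v} \ clZ (rel (ZArc s t y) τ) K).ncard ∧
      WalkT s t y j (y + tens s t h) (y + tens s t h') := by
  cases τ with
  | true => exact phase s t hG y hy K r hr hK h hx hc
  | false =>
    have hG' : GConn t s := by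
      unfold GConn
      rw [adj_swap]
      exact hG
    have hK' : ∀ v ∈ K, ConnIn t s K r v := by
      intro v hv
      unfold ConnIn
      rw [adj_swap]
      exact hK v hv
    have hx' : 0 ≤ y + tens t s (-h) := by
      rw [tens_swap, neg_neg]
      exact hx
    have hc' : ∀ v ∈ K, (-h) v = (-h) r := by
      intro v hv
      simp only [Pi.neg_apply]
      rw [hc v hv]
    obtain ⟨h', j, h1, h2, h3, h4⟩ := phase t s hG' y hy K r hr hK' (-h) hx' hc'
    rw [zArc_swap] at h2 h3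
    rw [transit_swap] at h3
    rw [tens_swap s t (-h), neg_neg, tens_swap s t h'] at h4
    rw [tens_swap s t h'] at h1
    refine ⟨-h', j, h1, ?_, h3, walkT_swap h4⟩
    intro v hv
    have := h2 v hv
    simp only [Pi.neg_apply]
    rw [this]

end Pool.Agent.CDN
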