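import Pool.Agent.CDN.Bond
import Pool.Agent.CDN.Find

/-!
# One maximal step (MP_c5fcd0_co)

`max_step`: let `S` be a bond side (`hS`, `hSc`), `x = y + tens s t h` feasible, every arc that
enters `S` (`t a ∈ S`, `s a ∉ S`) has `x a ≠ 0`, and there is such an arc `a0`. Let `δ` be the
minimum of `x a` over the (finite, nonempty) set of the entering arcs (`Finset.exists_min_image`
or `Set.Finite` with `E` finite); `δ > 0`. Put `h' v = if v ∈ S then h v - δ else h v`. Then
`tens s t h' = tens s t h + tens s t (fun v => if v ∈ S then -δ else 0)`, and `x' = y + tens s t h'`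
differs from `x` by `-δ` on the entering arcs, by `+δ` on the leaving arcs (`s a ∈ S`,
`t a ∉ S`) and by `0` on the others; so `0 ≤ x'`, and `x' - x` is elementary by `elem_of_bond`.
The minimising arc `a1` has `x' a1 = 0` and `(x + (1 + ε) • (x' - x)) a1 = - ε δ < 0`.
-/

set_option autoImplicit false

namespace Pool.Agent.CDN

variable {V E : Type*}

theorem max_step [Finite E] (s t : E → V) (hG : GConn s t) (y : E → ℝ) (S : Set V) (p q : V)
    (hp : p ∉ S) (hq : q ∈ S) (hS : ∀ u ∈ S, ConnIn s t S q u)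
    (hSc : ∀ u ∉ S, ConnIn s t Sᶜ p u) (h : V → ℝ) (hx : 0 ≤ y + tens s t h)
    (hpos : ∀ a, t a ∈ S → s a ∉ S → (y + tens s t h) a ≠ 0)
    (a0 : E) (ha0 : t a0 ∈ S) (ha0' : s a0 ∉ S) :
    ∃ (h' : V → ℝ) (a1 : E), t a1 ∈ S ∧ s a1 ∉ S ∧ (y + tens s t h') a1 = 0 ∧
      (∀ v ∉ S, h' v = h v) ∧ (∀ v ∈ S, h' v ≤ h v) ∧
      (∀ a, s a ∉ S → t a ∉ S → (y + tens s t h') a = (y + tens s t h) a) ∧
      StepT s t y (y + tens s t h) (y + tens s t h') := by
  classical
  set x : E → ℝ := y + tens s t h with hxdef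
  have hx0 : ∀ a, 0 ≤ x a := fun a => hx a
  obtain ⟨a1, ⟨ha1, ha1'⟩, hmin⟩ := Set.exists_min_image {a : E | t a ∈ S ∧ s a ∉ S} x
    (Set.toFinite _) ⟨a0, ha0, ha0'⟩
  have hδ : 0 < x a1 := lt_of_le_of_ne (hx0 a1) (hpos a1 ha1 ha1').symm
  have hsplit : ∀ a, tens s t (fun v => if v ∈ S then h v - x a1 else h v) a =
      tens s t h a + tens s t (fun v => if v ∈ S then -(x a1) else 0) a := by
    intro a
    by_cases h1 : s a ∈ S <;> by_cases h2 : t a ∈ S <;>
      simp only [tens, h1, h2, if_true, if_false] <;> ring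
  have hx' : ∀ a, (y + tens s t (fun v => if v ∈ S then h v - x a1 else h v)) a =
      x a + tens s t (fun v => if v ∈ S then -(x a1) else 0) a := by
    intro a
    have e1 : x a = y a + tens s t h a := by rw [hxdef, Pi.add_apply]
    rw [Pi.add_apply, hsplit a, e1]
    ring
  have hbb : ∀ a, s a ∉ S → t a ∉ S →
      (y + tens s t (fun v => if v ∈ S then h v - x a1 else h v)) a = x a := by
    intro a h1 h2
    rw [hx' a]
    simp only [tens, h1, h2, if_false, sub_self, add_zero]
  have hent : ∀ a, s a ∉ S → t a ∈ S →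
      (y + tens s t (fun v => if v ∈ S then h v - x a1 else h v)) a = x a - x a1 := by
    intro a h1 h2
    rw [hx' a]
    simp only [tens, h1, h2, if_false, if_true]
    ring
  have hlea : ∀ a, s a ∈ S → t a ∉ S →
      (y + tens s t (fun v => if v ∈ S then h v - x a1 else h v)) a = x a + x a1 := by
    intro a h1 h2
    rw [hx' a]
    simp only [tens, h1, h2, if_false, if_true]
    ring
  have hin : ∀ a, s a ∈ S → t a ∈ S →
      (y + tens s t (fun v => if v ∈ S then h v - x a1 else h v)) a = x a := by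
    intro a h1 h2
    rw [hx' a]
    simp only [tens, h1, h2, if_true, sub_self, add_zero]
  have hnn : 0 ≤ y + tens s t (fun v => if v ∈ S then h v - x a1 else h v) := by
    intro a
    rw [Pi.zero_apply]
    by_cases h1 : s a ∈ S <;> by_cases h2 : t a ∈ S
    · rw [hin a h1 h2]
      exact hx0 a
    · rw [hlea a h1 h2]
      linarith [hx0 a]
    · rw [hent a h1 h2]
      linarith [hmin a ⟨h2, h1⟩]
    · rw [hbb a h1 h2]
      exact hx0 a
  have hdiff : y + tens s t (fun v => if v ∈ S then h v - x a1 else h v) - x =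
      tens s t (fun v => if v ∈ S then -(x a1) else 0) := by
    funext a
    rw [Pi.sub_apply, hx' a, add_sub_cancel_left]
  refine ⟨fun v => if v ∈ S then h v - x a1 else h v, a1, ha1, ha1', ?_, ?_, ?_, ?_, ?_⟩
  · rw [hent a1 ha1' ha1, sub_self]
  · intro v hv
    simp only [hv, if_false]
  · intro v hv
    simp only [hv, if_true]
    linarith
  · intro a h1 h2
    exact hbb a h1 h2
  · refine ⟨⟨hx, h, rfl⟩, ⟨hnn, _, rfl⟩, ?_, ?_⟩
    · rw [hdiff]
      exact elem_of_bond s t hG S p q hp hq hS hSc (-(x a1)) (by linarith)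
    · rintro ε hε ⟨h0, -⟩
      have h1 := h0 a1
      rw [hdiff] at h1
      simp only [Pi.zero_apply, Pi.add_apply, Pi.smul_apply, smul_eq_mul, tens, ha1, ha1',
        if_true, if_false] at h1
      nlinarith [mul_pos hε hδ]

end Pool.Agent.CDN
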