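import Pool.Agent.CDN.Defs

/-!
# At a vertex the tight arcs connect the graph (MP_c5fcd0_co)

`vertex_conn`: let `y` be an extreme point of `PolyY s t y` (`y ∈ PolyY s t y` with `h = 0`). Fix
`u`, and let `U` be the set of the nodes `v` with
`ReflTransGen (fun a b => ZArc s t y a b ∨ ZArc s t y b a) u v`. Suppose `v ∉ U`. Every arc with
exactly one end in `U` has `y a ≠ 0` (otherwise the other end would be in `U`), so `0 < y a`. Let
`ε > 0` be smaller than all these `y a` (`E` finite). `g = tens s t (indicator of U)` vanishes on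
the arcs with both ends in `U` or both outside, and is `± 1` on the others, so
`y + ε g` and `y - ε g` are in `PolyY s t y` (with `h = ± ε χ_U`). Since `y` is extreme and
lies in the open segment between them, `y + ε g = y`, `g = 0`: no arc has exactly one end in
`U`, which contradicts `hG` (path from `u` to `v`).
-/

set_option autoImplicit false

namespace Pool.Agent.CDN

variable {V E : Type*}

private theorem Vertex_eps [Finite E] (y : E → ℝ) :
    ∃ ε : ℝ, 0 < ε ∧ ∀ a, 0 < y a → ε ≤ y a := by
  classical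
  have := Fintype.ofFinite E
  have key : ∀ S : Finset E, ∃ ε : ℝ, 0 < ε ∧ ∀ a ∈ S, 0 < y a → ε ≤ y a := by
    intro S
    induction S using Finset.induction_on with
    | empty => exact ⟨1, one_pos, by simp⟩
    | insert a S _ ih =>
      obtain ⟨ε, h0, h⟩ := ih
      rcases lt_or_ge 0 (y a) with ha | ha
      · refine ⟨min ε (y a), lt_min h0 ha, fun b hb hb0 => ?_⟩
        rcases Finset.mem_insert.1 hb with rfl | hb
        · exact min_le_right _ _
        · exact (min_le_left _ _).trans (h b hb hb0)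
      · refine ⟨ε, h0, fun b hb hb0 => ?_⟩
        rcases Finset.mem_insert.1 hb with rfl | hb
        · exact absurd hb0 (not_lt.2 ha)
        · exact h b hb hb0
  obtain ⟨ε, h0, h⟩ := key Finset.univ
  exact ⟨ε, h0, fun a => h a (Finset.mem_univ a)⟩

theorem vertex_conn [Finite E] (s t : E → V) (hG : GConn s t) (y : E → ℝ)
    (hy : y ∈ Set.extremePoints ℝ (PolyY s t y)) (u v : V) :
    Relation.ReflTransGen (fun a b => ZArc s t y a b ∨ ZArc s t y b a) u v := by
  classical
  obtain ⟨ε, hε, hmin⟩ := Vertex_eps y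
  obtain ⟨hyP, hyE⟩ := mem_extremePoints.1 hy
  have hy0 : 0 ≤ y := hyP.1
  obtain ⟨R, hR⟩ : ∃ R : V → V → Prop, R = fun a b => ZArc s t y a b ∨ ZArc s t y b a :=
    ⟨_, rfl⟩
  rw [← hR]
  obtain ⟨χ, hχ⟩ : ∃ χ : V → ℝ, χ = fun w => if Relation.ReflTransGen R u w then (1 : ℝ) else 0 :=
    ⟨_, rfl⟩
  have hχ1 : ∀ w, Relation.ReflTransGen R u w → χ w = 1 := fun w hw => by rw [hχ]; simp [hw]
  have hχ0 : ∀ w, ¬ Relation.ReflTransGen R u w → χ w = 0 := fun w hw => by rw [hχ]; simp [hw]
  have hχb : ∀ w, 0 ≤ χ w ∧ χ w ≤ 1 := by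
    intro w
    by_cases hw : Relation.ReflTransGen R u w
    · rw [hχ1 w hw]; norm_num
    · rw [hχ0 w hw]; norm_num
  -- tight arcs do not leave the component
  have hz : ∀ a, y a = 0 → χ (t a) = χ (s a) := by
    intro a ha
    have r1 : R (s a) (t a) := by rw [hR]; exact Or.inl ⟨a, ha, rfl, rfl⟩
    have r2 : R (t a) (s a) := by rw [hR]; exact Or.inr ⟨a, ha, rfl, rfl⟩
    by_cases hw : Relation.ReflTransGen R u (s a)
    · rw [hχ1 _ hw, hχ1 _ (hw.tail r1)]
    · have hw' : ¬ Relation.ReflTransGen R u (t a) := fun h => hw (h.tail r2)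
      rw [hχ0 _ hw, hχ0 _ hw']
  have hmem : ∀ c : ℝ, |c| ≤ ε → y + c • tens s t χ ∈ PolyY s t y := by
    intro c hc
    obtain ⟨c1, c2⟩ := abs_le.1 hc
    refine ⟨fun a => ?_, c • χ, ?_⟩
    · change (0 : ℝ) ≤ y a + c * (χ (t a) - χ (s a))
      rcases (hy0 a).eq_or_lt with ha | ha
      · rw [hz a ha.symm, sub_self, mul_zero, add_zero]
        exact hy0 a
      · have h1 := hmin a ha
        obtain ⟨b1, b2⟩ := hχb (t a)
        obtain ⟨b3, b4⟩ := hχb (s a)
        have h2 : |c * (χ (t a) - χ (s a))| ≤ ε * 1 := by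
          rw [abs_mul]
          refine mul_le_mul hc ?_ (abs_nonneg _) hε.le
          rw [abs_le]
          constructor <;> linarith
        have h3 := (abs_le.1 h2).1
        linarith
    · congr 1
      funext a
      change c * (χ (t a) - χ (s a)) = c * χ (t a) - c * χ (s a)
      ring
  have hg : ∀ a, χ (t a) = χ (s a) := by
    have h1 := hmem ε (by rw [abs_of_pos hε])
    have h2 := hmem (-ε) (by rw [abs_neg, abs_of_pos hε])
    have h3 : y ∈ openSegment ℝ (y + ε • tens s t χ) (y + (-ε) • tens s t χ) := by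
      refine ⟨1 / 2, 1 / 2, by norm_num, by norm_num, by norm_num, ?_⟩
      funext a
      simp only [Pi.add_apply, Pi.smul_apply, smul_eq_mul]
      ring
    have h4 : y + ε • tens s t χ = y := (hyE _ h1 _ h2 h3).1
    intro a
    have h5 := congrFun h4 a
    simp only [Pi.add_apply, Pi.smul_apply, smul_eq_mul] at h5
    have h6 : ε * (χ (t a) - χ (s a)) = 0 := by
      have : tens s t χ a = χ (t a) - χ (s a) := rfl
      rw [this] at h5
      linarith
    rcases mul_eq_zero.1 h6 with h | h
    · exact absurd h hε.ne'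
    · linarith
  have hall : ∀ w, Relation.ReflTransGen (Adj s t) u w → χ w = 1 := by
    intro w hw
    induction hw with
    | refl => exact hχ1 u Relation.ReflTransGen.refl
    | tail _ hab ih =>
      obtain ⟨a, ⟨rfl, rfl⟩ | ⟨rfl, rfl⟩⟩ := hab
      · rw [hg a, ih]
      · rw [← hg a, ih]
  by_contra hcon
  have h1 := hall v (hG u v)
  rw [hχ0 v hcon] at h1
  exact zero_ne_one h1

end Pool.Agent.CDN
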