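import Pool.Agent.CDN.PhaseB
import Pool.Agent.CDN.Layers

/-!
# All phases (MP_c5fcd0_co)

`walk_append`: concatenation of walks (`w i` for `i ≤ j`, then `w' (i - j)`).

`conn_clZ`: if `K` is connected in itself (from `r`), so is `clZ (rel (ZArc s t y) τ) K`: a node
of it is reached from some `u ∈ K` by a path of arcs, all of whose nodes lie in the closure, and
`r` is joined to `u` inside `K`.

`all_phases`: by induction on `k`, for `L k = lay (ZArc s t y) τ {r} k`: there are `h'` and `j`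
with `0 ≤ y + tens s t h'`, `h' v = h' r` on `L k`, a walk with `j` steps from
`y + tens s t h` to `y + tens s t h'`, and
`j ≤ ∑ i ∈ range k, ((L (i + 1) \ L i).ncard + ({v | Transit s t v} \ L (i + 1)).ncard)`. The
step is `phase_rel` with `K = L k`, direction `typ τ k`, and `walk_append`.
-/

set_option autoImplicit false

namespace Pool.Agent.CDN

variable {V E : Type*}

theorem walk_append (s t : E → V) (y : E → ℝ) (j k : ℕ) (x x' x'' : E → ℝ)
    (h1 : WalkT s t y j x x') (h2 : WalkT s t y k x' x'') : WalkT s t y (j + k) x x'' := by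
  obtain ⟨w, hw0, hwj, hw⟩ := h1
  obtain ⟨w', hw'0, hw'k, hw'⟩ := h2
  refine ⟨fun i => if i ≤ j then w i else w' (i - j), ?_, ?_, ?_⟩
  · simp [hw0]
  · by_cases hk : k = 0
    · subst hk
      simp only [add_zero, le_refl, if_true]
      rw [hwj, ← hw'k, hw'0]
    · have h3 : ¬ j + k ≤ j := by omega
      have h4 : j + k - j = k := by omega
      simp only [h3, if_false]
      rw [h4, hw'k]
  · intro i hi
    by_cases h3 : i + 1 ≤ j
    · have h4 : i ≤ j := by omega
      simp only [h3, h4, if_true]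
      exact hw i (by omega)
    · by_cases h4 : i ≤ j
      · have h5 : i = j := by omega
        have h6 : i + 1 - j = 0 + 1 := by omega
        simp only [h3, h4, if_true, if_false]
        rw [h6, h5, hwj, ← hw'0]
        exact hw' 0 (by omega)
      · have h6 : i + 1 - j = (i - j) + 1 := by omega
        simp only [h3, h4, if_false]
        rw [h6]
        exact hw' (i - j) (by omega)

private theorem walk_zero (s t : E → V) (y : E → ℝ) (x : E → ℝ) : WalkT s t y 0 x x :=
  ⟨fun _ => x, rfl, rfl, fun i hi => absurd hi (Nat.not_lt_zero i)⟩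

private theorem adj_of_rel (s t : E → V) (y : E → ℝ) (τ : Bool) (a b : V)
    (h : rel (ZArc s t y) τ a b) : Adj s t a b := by
  cases τ with
  | true =>
    obtain ⟨e, _, h1, h2⟩ := h
    exact ⟨e, Or.inl ⟨h1, h2⟩⟩
  | false =>
    obtain ⟨e, _, h1, h2⟩ := h
    exact ⟨e, Or.inr ⟨h1, h2⟩⟩

theorem conn_clZ (s t : E → V) (y : E → ℝ) (τ : Bool) (K : Set V) (r : V)
    (hK : ∀ v ∈ K, ConnIn s t K r v) :
    ∀ v ∈ clZ (rel (ZArc s t y) τ) K, ConnIn s t (clZ (rel (ZArc s t y) τ) K) r v := by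
  rintro v ⟨u, hu, huv⟩
  have hsub : K ⊆ clZ (rel (ZArc s t y) τ) K := fun a ha => ⟨a, ha, Relation.ReflTransGen.refl⟩
  have h1 : ConnIn s t (clZ (rel (ZArc s t y) τ) K) r u :=
    Relation.ReflTransGen.mono
      (fun a b hab => ⟨hab.1, hsub hab.2.1, hsub hab.2.2⟩) r u (hK u hu)
  refine Relation.ReflTransGen.trans h1 ?_
  induction huv with
  | refl => exact Relation.ReflTransGen.refl
  | tail hab hbc ih =>
    exact Relation.ReflTransGen.tail ih
      ⟨adj_of_rel s t y τ _ _ hbc, ⟨u, hu, hab⟩, ⟨u, hu, Relation.ReflTransGen.tail hab hbc⟩⟩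

private theorem conn_lay (s t : E → V) (y : E → ℝ) (τ : Bool) (r : V) (k : ℕ) :
    ∀ v ∈ lay (ZArc s t y) τ {r} k, ConnIn s t (lay (ZArc s t y) τ {r} k) r v := by
  induction k with
  | zero =>
    intro v hv
    have hv' : v = r := hv
    rw [hv']
    exact Relation.ReflTransGen.refl
  | succ k ih => exact conn_clZ s t y (typ τ k) _ r ih

private theorem mem_lay (s t : E → V) (y : E → ℝ) (τ : Bool) (r : V) (k : ℕ) :
    r ∈ lay (ZArc s t y) τ {r} k := by
  induction k with
  | zero => exact Set.mem_singleton r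
  | succ k ih => exact ⟨r, ih, Relation.ReflTransGen.refl⟩

theorem all_phases [Finite V] [Finite E] (s t : E → V) (hG : GConn s t) (y : E → ℝ)
    (hy : 0 ≤ y) (τ : Bool) (r : V) (h : V → ℝ) (hx : 0 ≤ y + tens s t h) (k : ℕ) :
    ∃ (h' : V → ℝ) (j : ℕ), 0 ≤ y + tens s t h' ∧
      (∀ v ∈ lay (ZArc s t y) τ {r} k, h' v = h' r) ∧
      j ≤ ∑ i ∈ Finset.range k,
        ((lay (ZArc s t y) τ {r} (i + 1) \ lay (ZArc s t y) τ {r} i).ncard +
          ({v | Transit s t v} \ lay (ZArc s t y) τ {r} (i + 1)).ncard) ∧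
      WalkT s t y j (y + tens s t h) (y + tens s t h') := by
  induction k with
  | zero =>
    refine ⟨h, 0, hx, ?_, Nat.zero_le _, walk_zero s t y _⟩
    intro v hv
    have hv' : v = r := hv
    rw [hv']
  | succ k ih =>
    obtain ⟨h1, j1, hx1, hc1, hj1, hw1⟩ := ih
    obtain ⟨h2, j2, hx2, hc2, hj2, hw2⟩ := phase_rel s t hG y hy (typ τ k)
      (lay (ZArc s t y) τ {r} k) r (mem_lay s t y τ r k) (conn_lay s t y τ r k) h1 hx1 hc1
    refine ⟨h2, j1 + j2, hx2, hc2, ?_, walk_append s t y j1 j2 _ _ _ hw1 hw2⟩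
    rw [Finset.sum_range_succ]
    exact Nat.add_le_add hj1 hj2

end Pool.Agent.CDN
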